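import Mathlib

/-!
# MP_9cc08e_co : cyclic covering codimension and Frobenius-invariant direct sums

For `q = 3`, `n = 32` the field `K = 𝔽_{3^32}` is the direct sum of the `σ`-invariant subspaces
`W₁ = ker (σ^16 + 1)` and `W₂ = ker (σ^16 - 1)`, and `h_σ(W₁) ≤ 1`, `h_σ(W₂) ≤ 1`, but
`h_σ(K) ≥ 2`.  So Q1 is false.

* `h_σ(K) ≥ 2`: in normal-basis coordinates `K` is `𝔽_3^32` with the cyclic shift.  Take one
  functional whose words `F` satisfy `F (i+8) = F i - F (i+4)` and one whose words `G` satisfy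
  `G (i+2) = G i - G (i+1)`.  Among `G 0, …, G 3` there is a zero `G r = 0`, and
  `G (r + 4 k) = ± G r = 0`; among `F r, F (r+4), F (r+8), F (r+12)` there is a zero too.
* `h_σ(W₂) ≤ 1` by counting (fewer than 9 shifts are available on the `8`-periodic and on the
  `8`-antiperiodic part, and then on `W₂` itself).
* `h_σ(W₁) ≤ 1`: `W₁` is the sum of two irreducible modules `A 1`, `A 2` of dimension `8`.  Neither
  has a covering of codimension two (finite check over all pairs of functionals, normalised by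
  irreducibility), and codimension `1 + 1` is impossible since there are words of `A 1` and `A 2`
  without a common zero.
-/

set_option linter.unusedVariables false
set_option linter.style.longLine false

namespace Pool.Agent.Results.MP_9cc08e_co.FrobeniusSplit

/-- The `F`-linear Frobenius map `x ↦ x ^ q`, `q = |F|`, of an extension `K` of a finite field
`F`. -/
noncomputable def frob (F K : Type) [Field F] [Fintype F] [Field K] [Algebra F K] : K →ₗ[F] K :=
  (FiniteField.frobeniusAlgHom F K).toLinearMap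

/-- `U` is a `σ`-covering of `W`, where `σ` is the Frobenius map of `K/F` and `n = [K : F]`:
`U ⊆ W` and each element of `W` lies in `σ^i(U)` for some `0 ≤ i ≤ n - 1`. -/
def IsCovering {F K : Type} [Field F] [Fintype F] [Field K] [Algebra F K]
    (W U : Submodule F K) : Prop :=
  U ≤ W ∧ ∀ x ∈ W, ∃ i < Module.finrank F K, x ∈ U.map (frob F K ^ i)

/-- `h_σ(W)`: the maximum of `dim W - dim U` over all `σ`-coverings `U` of `W`. -/
noncomputable def hSigma {F K : Type} [Field F] [Fintype F] [Field K] [Algebra F K]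
    (W : Submodule F K) : ℕ :=
  sSup {d | ∃ U : Submodule F K, IsCovering W U ∧
    Module.finrank F W = Module.finrank F U + d}

open Module

abbrev F := ZMod 3
abbrev V := ZMod 32 → ZMod 3

/-- shift operator on sequences -/
def E : V →ₗ[F] V := LinearMap.funLeft F F (fun i => i + 1)

lemma E_apply (v : V) (i : ZMod 32) : E v i = v (i + 1) := rfl

lemma Epow_apply (k : ℕ) (v : V) (i : ZMod 32) : (E ^ k) v i = v (i + k) := by
  induction k generalizing v i with
  | zero => simp
  | succ k ih =>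
    rw [pow_succ, Module.End.mul_apply, ih, E_apply]
    congr 1
    push_cast
    ring

lemma E32 : E ^ 32 = 1 := by
  refine LinearMap.ext fun v => funext fun i => ?_
  rw [Epow_apply]
  have : ((32 : ℕ) : ZMod 32) = 0 := by decide
  rw [this, add_zero]
  rfl

lemma Epow_mod (k : ℕ) : E ^ (k % 32) = E ^ k := by
  conv_rhs => rw [← Nat.mod_add_div k 32, pow_add, pow_mul, E32, one_pow, mul_one]

lemma Epow_inj (k : ℕ) {v : V} (h : (E ^ k) v = 0) : v = 0 := by
  have h2 : (E ^ (32 * k)) v = 0 := by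
    have : 32 * k = 31 * k + k := by ring
    rw [this, pow_add, Module.End.mul_apply, h, map_zero]
  rw [pow_mul, E32, one_pow] at h2
  exact h2

/-- covering in coordinates -/
def Cov (W U : Submodule F V) : Prop := U ≤ W ∧ ∀ v ∈ W, ∃ i : ℕ, (E ^ i) v ∈ U

lemma card_sub (U : Submodule F V) : Nat.card U = 3 ^ finrank F U := by
  rw [Module.natCard_eq_pow_finrank (K := F)]
  simp

/-- counting lemma: fewer than 9 shifts of `U` cover `W` -/
lemma count {W U : Submodule F V} {m : ℕ} (hm : m < 9)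
    (h : ∀ v ∈ W, ∃ i < m, (E ^ i) v ∈ U) : finrank F W ≤ finrank F U + 1 := by
  classical
  have hc : Nat.card W ≤ m * Nat.card U := by
    choose i hi hiU using fun v : W => h v.1 v.2
    let φ : W → Fin m × U := fun v => (⟨i v, hi v⟩, ⟨(E ^ (i v)) v.1, hiU v⟩)
    have hφ : Function.Injective φ := by
      intro v w hvw
      have h1 : i v = i w := by
        have := congrArg (fun p => (p.1 : ℕ)) hvw
        exact this
      have h2 : (E ^ (i v)) v.1 = (E ^ (i w)) w.1 := by
        have := congrArg (fun p => (p.2 : V)) hvw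
        exact this
      rw [← h1] at h2
      have h3 : (E ^ (i v)) (v.1 - w.1) = 0 := by rw [map_sub, h2, sub_self]
      exact Subtype.ext (sub_eq_zero.mp (Epow_inj _ h3))
    have := Nat.card_le_card_of_injective φ hφ
    rwa [Nat.card_prod, Nat.card_fin] at this
  rw [card_sub, card_sub] at hc
  by_contra hcon
  push Not at hcon
  have h1 : 3 ^ (finrank F U + 2) ≤ 3 ^ finrank F W := Nat.pow_le_pow_right (by norm_num) (by omega)
  have h2 : 0 < 3 ^ finrank F U := by positivity
  rw [pow_add] at h1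
  nlinarith

/-- splitting lemma -/
lemma split {W A B U : Submodule F V} (hAB : A ⊓ B = ⊥) (hW : A ⊔ B = W)
    (hA : finrank F A ≤ finrank F (U ⊓ A : Submodule F V) + 1)
    (hB : finrank F B ≤ finrank F (U ⊓ B : Submodule F V) + 1)
    (hU : finrank F U + 2 ≤ finrank F W) :
    (U ⊓ A) ⊔ (U ⊓ B) = U ∧ finrank F (U ⊓ A : Submodule F V) + 1 ≤ finrank F A ∧
      finrank F (U ⊓ B : Submodule F V) + 1 ≤ finrank F B := by
  have h1 := Submodule.finrank_sup_add_finrank_inf_eq A B
  rw [hAB, hW, finrank_bot, add_zero] at h1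
  have h2 := Submodule.finrank_sup_add_finrank_inf_eq (U ⊓ A) (U ⊓ B)
  have h3 : (U ⊓ A) ⊓ (U ⊓ B) = ⊥ := by
    rw [eq_bot_iff, ← hAB]
    exact inf_le_inf inf_le_right inf_le_right
  rw [h3, finrank_bot, add_zero] at h2
  have h4 : (U ⊓ A) ⊔ (U ⊓ B) ≤ U := sup_le inf_le_left inf_le_left
  have h5 : finrank F ((U ⊓ A) ⊔ (U ⊓ B) : Submodule F V) ≤ finrank F U :=
    Submodule.finrank_mono h4
  refine ⟨Submodule.eq_of_le_of_finrank_le h4 (by omega), by omega, by omega⟩


/-- the periodic part -/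
def W2 : Submodule F V := LinearMap.ker (E ^ 16 - 1)
def W1 : Submodule F V := LinearMap.ker (E ^ 16 + 1)

lemma mem_W2 {v : V} : v ∈ W2 ↔ (E ^ 16) v = v := by
  rw [W2, LinearMap.mem_ker, LinearMap.sub_apply, Module.End.one_apply, sub_eq_zero]

lemma mem_W1 {v : V} : v ∈ W1 ↔ (E ^ 16) v = -v := by
  rw [W1, LinearMap.mem_ker, LinearMap.add_apply, Module.End.one_apply, add_eq_zero_iff_eq_neg]

def P8 : Submodule F V := LinearMap.ker (E ^ 8 - 1)
def N8 : Submodule F V := LinearMap.ker (E ^ 8 + 1)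

lemma mem_P8 {v : V} : v ∈ P8 ↔ (E ^ 8) v = v := by
  rw [P8, LinearMap.mem_ker, LinearMap.sub_apply, Module.End.one_apply, sub_eq_zero]

lemma mem_N8 {v : V} : v ∈ N8 ↔ (E ^ 8) v = -v := by
  rw [N8, LinearMap.mem_ker, LinearMap.add_apply, Module.End.one_apply, add_eq_zero_iff_eq_neg]

lemma E_add (a b : ℕ) (v : V) : (E ^ (a + b)) v = (E ^ a) ((E ^ b) v) := by
  rw [pow_add, Module.End.mul_apply]

lemma E_comm (a b : ℕ) (v : V) : (E ^ a) ((E ^ b) v) = (E ^ b) ((E ^ a) v) := by
  rw [← E_add, add_comm, E_add]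

lemma three (v : V) : v + v + v = 0 := by
  have h : ∀ a : ZMod 3, a + a + a = 0 := by decide
  exact funext fun i => h (v i)

lemma P8_le : P8 ≤ W2 := by
  intro v hv
  rw [mem_P8] at hv
  rw [mem_W2, show 16 = 8 + 8 from rfl, E_add, hv, hv]

lemma N8_le : N8 ≤ W2 := by
  intro v hv
  rw [mem_N8] at hv
  rw [mem_W2, show 16 = 8 + 8 from rfl, E_add, hv, map_neg, hv, neg_neg]

lemma PN_inf : P8 ⊓ N8 = ⊥ := by
  rw [eq_bot_iff]
  rintro v ⟨h1, h2⟩
  have h1' := mem_P8.mp h1
  have h2' := mem_N8.mp h2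
  rw [h1'] at h2'
  have h3 := three v
  rw [Submodule.mem_bot]
  have : v + v = 0 := by nth_rewrite 1 [h2']; exact neg_add_cancel v
  rwa [this, zero_add] at h3

lemma PN_sup : P8 ⊔ N8 = W2 := by
  refine le_antisymm (sup_le P8_le N8_le) fun v hv => ?_
  rw [mem_W2] at hv
  have h88 : (E ^ 8) ((E ^ 8) v) = v := by rw [← E_add]; exact hv
  have hP : -(v + (E ^ 8) v) ∈ P8 := by
    rw [mem_P8, map_neg, map_add, h88, add_comm]
  have hN : -(v - (E ^ 8) v) ∈ N8 := by
    rw [mem_N8, map_neg, map_sub, h88]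
    abel
  have h3 := three v
  have : v = -(v + (E ^ 8) v) + -(v - (E ^ 8) v) := by
    rw [← sub_eq_zero]
    calc _ = v + v + v := by abel
      _ = 0 := h3
  rw [this]
  exact Submodule.add_mem_sup hP hN

/-- if `E^8 v = ± v` then an orbit position can be reduced mod 8 -/
lemma red8 {U : Submodule F V} {v : V} (h : (E ^ 8) v = v ∨ (E ^ 8) v = -v) {i : ℕ}
    (hi : (E ^ i) v ∈ U) : (E ^ (i % 8)) v ∈ U := by
  have key : ∀ k r : ℕ, (E ^ (r + 8 * k)) v ∈ U → (E ^ r) v ∈ U := by
    intro k r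
    induction k with
    | zero => intro h; simpa using h
    | succ k ih =>
      intro h'
      apply ih
      have e : r + 8 * (k + 1) = (r + 8 * k) + 8 := by ring
      rw [e, E_add] at h'
      rcases h with h | h
      · rwa [h] at h'
      · rw [h, map_neg] at h'
        simpa using U.neg_mem h'
  apply key (i / 8)
  rwa [Nat.mod_add_div]

lemma inv8 {A : Submodule F V} (hA : ∀ v ∈ A, (E ^ 8) v = v ∨ (E ^ 8) v = -v)
    (hE : ∀ v ∈ A, ∀ i, (E ^ i) v ∈ A) {W U : Submodule F V} (hAW : A ≤ W) (hU : Cov W U) :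
    finrank F A ≤ finrank F (U ⊓ A : Submodule F V) + 1 := by
  refine count (m := 8) (by norm_num) fun v hv => ?_
  obtain ⟨i, hi⟩ := hU.2 v (hAW hv)
  exact ⟨i % 8, Nat.mod_lt _ (by norm_num), red8 (hA v hv) hi, hE v hv _⟩

theorem cov_W2 {U : Submodule F V} (hU : Cov W2 U) : finrank F W2 ≤ finrank F U + 1 := by
  have hP : finrank F P8 ≤ finrank F (U ⊓ P8 : Submodule F V) + 1 := by
    refine inv8 (fun v hv => Or.inl (mem_P8.mp hv)) (fun v hv i => ?_) P8_le hU
    rw [mem_P8] at hv ⊢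
    rw [E_comm, hv]
  have hN : finrank F N8 ≤ finrank F (U ⊓ N8 : Submodule F V) + 1 := by
    refine inv8 (fun v hv => Or.inr (mem_N8.mp hv)) (fun v hv i => ?_) N8_le hU
    rw [mem_N8] at hv ⊢
    rw [E_comm, hv, map_neg]
  by_contra hcon
  push Not at hcon
  obtain ⟨hs, -, -⟩ := split PN_inf PN_sup hP hN (by omega)
  have hE8 : ∀ u ∈ U, (E ^ 8) u ∈ U := by
    intro u hu
    rw [← hs] at hu
    obtain ⟨a, ha, b, hb, rfl⟩ := Submodule.mem_sup.mp hu
    rw [map_add, mem_P8.mp ha.2, mem_N8.mp hb.2]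
    exact U.add_mem ha.1 (U.neg_mem hb.1)
  have hE8k : ∀ k : ℕ, ∀ u ∈ U, (E ^ (8 * k)) u ∈ U := by
    intro k
    induction k with
    | zero => intro u hu; simpa using hu
    | succ k ih =>
      intro u hu
      have e : 8 * (k + 1) = 8 * k + 8 := by ring
      rw [e, E_add]
      exact ih _ (hE8 u hu)
  have := count (W := W2) (U := U) (m := 8) (by norm_num) (by
    intro v hv
    obtain ⟨i, hi⟩ := hU.2 v hv
    refine ⟨i % 8, Nat.mod_lt _ (by norm_num), ?_⟩
    have h1 := hE8k (i / 8) _ hi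
    rw [← E_add] at h1
    have h16 : ∀ k : ℕ, (E ^ (16 * k)) v = v := by
      intro k
      induction k with
      | zero => simp
      | succ k ih =>
        have e : 16 * (k + 1) = 16 * k + 16 := by ring
        rw [e, E_add, mem_W2.mp hv, ih]
    have e : 8 * (i / 8) + i = i % 8 + 16 * (i / 8) := by omega
    rw [e, E_add, h16] at h1
    exact h1)
  omega


open Polynomial

/-- `A e`: sequences with `v (i+8) + e * v (i+4) - v i = 0` -/
def A (e : F) : Submodule F V := LinearMap.ker (E ^ 8 + e • E ^ 4 - 1)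

lemma mem_A {e : F} {v : V} : v ∈ A e ↔ ∀ i, v (i + 8) + e * v (i + 4) - v i = 0 := by
  rw [A, LinearMap.mem_ker, funext_iff]
  refine forall_congr' fun i => ?_
  rw [LinearMap.sub_apply, LinearMap.add_apply, LinearMap.smul_apply, Module.End.one_apply,
    Pi.sub_apply, Pi.add_apply, Pi.smul_apply, Epow_apply, Epow_apply]
  norm_num

lemma mem_A' {e : F} {v : V} : v ∈ A e ↔ (E ^ 8) v = v - e • (E ^ 4) v := by
  rw [A, LinearMap.mem_ker, LinearMap.sub_apply, LinearMap.add_apply, LinearMap.smul_apply,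
    Module.End.one_apply, sub_eq_zero, ← eq_sub_iff_add_eq]

lemma A_inv {e : F} {v : V} (hv : v ∈ A e) (i : ℕ) : (E ^ i) v ∈ A e := by
  rw [mem_A'] at hv ⊢
  rw [E_comm, hv, map_sub, map_smul, E_comm]

/-- seeds -/
def seed : V →ₗ[F] (Fin 8 → F) := LinearMap.funLeft F F (fun j : Fin 8 => ((j : ℕ) : ZMod 32))

lemma seed_inj {e : F} {v : V} (hv : v ∈ A e) (h : ∀ j : ℕ, j < 8 → v (j : ZMod 32) = 0) :
    v = 0 := by
  rw [mem_A] at hv
  have key : ∀ n : ℕ, v (n : ZMod 32) = 0 := by
    intro n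
    induction n using Nat.strong_induction_on with
    | _ n ih =>
      by_cases hn : n < 8
      · exact h n hn
      · obtain ⟨m, rfl⟩ : ∃ m, n = m + 8 := ⟨n - 8, by omega⟩
        have h1 := hv (m : ZMod 32)
        have h2 := ih m (by omega)
        have h3 := ih (m + 4) (by omega)
        push_cast at h3 ⊢
        rw [h2, h3] at h1
        simpa using h1
  funext i
  have := key i.val
  rwa [ZMod.natCast_zmod_val] at this

lemma finrank_A (e : F) : finrank F (A e) ≤ 8 := by
  have hinj : Function.Injective (seed ∘ₗ (A e).subtype) := by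
    rw [← LinearMap.ker_eq_bot, LinearMap.ker_eq_bot']
    intro v hv
    apply Subtype.ext
    refine seed_inj v.2 fun j hj => ?_
    have := congrFun hv ⟨j, hj⟩
    exact this
  have := LinearMap.finrank_le_finrank_of_injective hinj
  simpa using this

/-- the polynomial `X^8 + e X^4 - 1` -/
noncomputable def Pol (e : F) : F[X] := X ^ 8 + C e * X ^ 4 - 1

lemma Pol_natDegree (e : F) : (Pol e).natDegree = 8 := by
  rw [Pol]
  compute_degree!

lemma orderOf_three : orderOf (ZMod.unitOfCoprime 3 (by decide : Nat.Coprime 3 32)) = 8 := by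
  have : (8 : ℕ) = 2 ^ (2 + 1) := by norm_num
  rw [this]
  refine orderOf_eq_prime_pow ?_ ?_
  · rw [Units.ext_iff]; decide
  · rw [Units.ext_iff]; decide

lemma Pol_irr {e : F} (he : e ^ 2 = 1) : Irreducible (Pol e) := by
  have : Fact (Nat.Prime 3) := ⟨Nat.prime_three⟩
  refine ZMod.irreducible_of_dvd_cyclotomic_of_natDegree (p := 3) (n := 32) (by norm_num) ?_ ?_
  · have h32 : (32 : ℕ) = 2 ^ (4 + 1) := by norm_num
    rw [h32, cyclotomic_prime_pow_eq_geom_sum Nat.prime_two]
    have h3 : (3 : F[X]) = 0 := by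
      have : ((3 : ℕ) : F[X]) = 0 := CharP.cast_eq_zero _ 3
      simpa using this
    have he' : (C e : F[X]) ^ 2 = 1 := by rw [← C_pow, he, C_1]
    refine ⟨X ^ 8 - C e * X ^ 4 - 1, ?_⟩
    simp only [Finset.sum_range_succ, Finset.sum_range_zero]
    rw [Pol]
    linear_combination (X ^ 8 : F[X]) * he' - (X ^ 8 : F[X]) * h3 * (-1)
  · rw [Pol_natDegree]
    exact orderOf_three.symm


lemma aeval_Pol {e : F} {v : V} (hv : v ∈ A e) : (aeval E (Pol e)) v = 0 := by
  rw [Pol, map_sub, map_add, map_mul, map_pow, map_pow, aeval_X, aeval_C, map_one]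
  rw [A, LinearMap.mem_ker] at hv
  have : (algebraMap F (V →ₗ[F] V)) e * E ^ 4 = e • E ^ 4 := by
    rw [Algebra.smul_def]
  rw [this]
  exact hv

/-- `A e` has no proper non-zero `E`-invariant subspace -/
lemma simple {e : F} (he : e ^ 2 = 1) {N : Submodule F V} (hN : N ≤ A e)
    (hE : ∀ v ∈ N, E v ∈ N) {x : V} (hx : x ∈ N) (hx0 : x ≠ 0) : N = A e := by
  have hpoly : ∀ Q : F[X], (aeval E Q) x ∈ N := by
    intro Q
    induction Q using Polynomial.induction_on' with
    | add p q hp hq => rw [map_add, LinearMap.add_apply]; exact N.add_mem hp hq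
    | monomial n a =>
      rw [aeval_monomial, ← Algebra.smul_def, LinearMap.smul_apply]
      refine N.smul_mem _ ?_
      induction n with
      | zero => simpa using hx
      | succ n ih =>
        rw [add_comm, pow_add, pow_one, Module.End.mul_apply]
        exact hE _ ih
  let φ : degreeLT F 8 →ₗ[F] N :=
    { toFun := fun Q => ⟨(aeval E Q.1) x, hpoly _⟩
      map_add' := fun p q => by
        apply Subtype.ext
        simp
      map_smul' := fun a p => by
        apply Subtype.ext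
        simp }
  have hφ : Function.Injective φ := by
    rw [← LinearMap.ker_eq_bot, LinearMap.ker_eq_bot']
    rintro ⟨Q, hQ⟩ h0
    apply Subtype.ext
    change Q = 0
    by_contra hQ0
    have h1 : (aeval E Q) x = 0 := congrArg Subtype.val h0
    have hdeg : Q.natDegree < 8 := by
      rw [mem_degreeLT] at hQ
      exact (natDegree_lt_iff_degree_lt hQ0).mpr hQ
    have hcop : IsCoprime (Pol e) Q := by
      rw [(Pol_irr he).coprime_iff_not_dvd]
      intro hd
      have := natDegree_le_of_dvd hd hQ0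
      rw [Pol_natDegree] at this
      omega
    obtain ⟨a, b, hab⟩ := hcop
    have h2 : (aeval E (a * Pol e + b * Q)) x = x := by rw [hab, map_one, Module.End.one_apply]
    rw [map_add, map_mul, map_mul, LinearMap.add_apply, Module.End.mul_apply,
      Module.End.mul_apply, h1, aeval_Pol (hN hx), map_zero, map_zero, add_zero] at h2
    exact hx0 h2.symm
  have h8 : 8 ≤ finrank F N := by
    have h := LinearMap.finrank_le_finrank_of_injective hφ
    rwa [(degreeLTEquiv F 8).finrank_eq, Module.finrank_fin_fun] at h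
  exact Submodule.eq_of_le_of_finrank_le hN ((finrank_A e).trans h8)

/-- the word of a functional -/
def T (f : V →ₗ[F] F) : V →ₗ[F] V where
  toFun v := fun i => f ((E ^ i.val) v)
  map_add' v w := funext fun i => by simp
  map_smul' a v := funext fun i => by simp

lemma T_apply (f : V →ₗ[F] F) (v : V) (i : ZMod 32) : T f v i = f ((E ^ i.val) v) := rfl

lemma T_E (f : V →ₗ[F] F) (v : V) : T f (E v) = E (T f v) := by
  funext i
  rw [E_apply, T_apply, T_apply]
  have : E ^ (i + 1).val = E ^ (i.val + 1) := by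
    rw [ZMod.val_add, ← Epow_mod (i.val + 1)]
    rfl
  rw [this, pow_succ, Module.End.mul_apply]

lemma T_Epow (f : V →ₗ[F] F) (k : ℕ) (v : V) : T f ((E ^ k) v) = (E ^ k) (T f v) := by
  induction k with
  | zero => simp
  | succ k ih => rw [add_comm, E_add, pow_one, T_E, ih, E_add, pow_one]

lemma T_zero (f : V →ₗ[F] F) (v : V) : T f v 0 = f v := by
  rw [T_apply]
  simp

lemma T_A {e : F} (f : V →ₗ[F] F) {v : V} (hv : v ∈ A e) : T f v ∈ A e := by
  rw [mem_A'] at hv ⊢
  rw [← T_Epow, hv, map_sub, map_smul, T_Epow]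

lemma T_surj {e : F} (he : e ^ 2 = 1) (f : V →ₗ[F] F) (hf : ∃ x ∈ A e, f x ≠ 0) {w : V}
    (hw : w ∈ A e) : ∃ x ∈ A e, T f x = w := by
  let φ : A e →ₗ[F] A e := (T f).restrict fun v hv => T_A f hv
  have hinj : Function.Injective φ := by
    rw [← LinearMap.ker_eq_bot, LinearMap.ker_eq_bot']
    rintro ⟨x, hx⟩ h0
    apply Subtype.ext
    change x = 0
    by_contra hx0
    have h1 : T f x = 0 := congrArg Subtype.val h0
    have hN : (A e ⊓ LinearMap.ker (T f)) = A e := by
      refine simple he inf_le_left (fun v hv => ?_) (x := x) ⟨hx, h1⟩ hx0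
      refine ⟨?_, ?_⟩
      · have := A_inv hv.1 1
        rwa [pow_one] at this
      · change T f (E v) = 0
        have h2 : T f v = 0 := hv.2
        rw [T_E, h2, map_zero]
    obtain ⟨y, hy, hfy⟩ := hf
    rw [← hN] at hy
    have h3 : T f y = 0 := hy.2
    apply hfy
    rw [← T_zero, h3]
    rfl
  have hsurj : Function.Surjective φ := LinearMap.surjective_of_injective hinj
  obtain ⟨⟨x, hx⟩, hxw⟩ := hsurj ⟨w, hw⟩
  exact ⟨x, hx, congrArg Subtype.val hxw⟩

/-- `i`-th base-3 digit -/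
def wd (W i : ℕ) : ℕ := W / 3 ^ i % 3

def wsP : List ℕ := [331477070285080, 311638042362520, 811930150246120, 523256578816440, 1125584665474440,
  812787770049400, 217361844982840, 1023576293814040, 1679976738727000, 1135325019529720,
  14870576314600, 1579854504482440, 1262411185621720, 1071551212964680, 991858351270440,
  976417792532680, 1139334175729240]
def wsM : List ℕ := [899442895894840, 960814951098040, 938652820052440, 1353101288247400,
  514529889440200, 1060894437626920, 966378823567000, 659467143427720, 338739525421240,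
  608283321036280, 1028587577925880, 1176390684650200, 1600883043138040, 1126726393570680,
  1592512177974040, 686252104032760, 938373791213640]

/-- digit recurrence `w (i+8) + e w (i+4) - w i = 0` (e = 1 or 2) -/
def recOk (e W : ℕ) : Bool :=
  (List.range 32).all fun i => (wd W ((i + 8) % 32) + e * wd W ((i + 4) % 32) + 2 * wd W i) % 3 == 0

def goodAt (b W i : ℕ) : Bool :=
  (wd W i != 0) || ((wd b 0 * wd W ((i + 1) % 32) + wd b 1 * wd W ((i + 2) % 32) +
    wd b 2 * wd W ((i + 3) % 32) + wd b 3 * wd W ((i + 4) % 32) + wd b 4 * wd W ((i + 5) % 32) +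
    wd b 5 * wd W ((i + 6) % 32) + wd b 6 * wd W ((i + 7) % 32)) % 3 != 0)

def good (b W : ℕ) : Bool := (List.range 32).all (goodAt b W)

def chk (ws : List ℕ) : Bool := (List.range 2186).all fun b => ws.any fun W => good (b + 1) W

set_option maxRecDepth 100000 in
theorem recP : wsP.all (recOk 1) = true := by decide +kernel
set_option maxRecDepth 100000 in
theorem recM : wsM.all (recOk 2) = true := by decide +kernel
set_option maxRecDepth 100000 in
theorem chkP : chk wsP = true := by decide +kernel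
set_option maxRecDepth 100000 in
theorem chkM : chk wsM = true := by decide +kernel

/-- the word with base-3 digits of `W` -/
def wrd (W : ℕ) : V := fun i => (wd W i.val : ZMod 3)

lemma wd_lt (W i : ℕ) : wd W i < 3 := Nat.mod_lt _ (by norm_num)

lemma val_add_nat (i : ZMod 32) (k : ℕ) : (i + (k : ZMod 32)).val = (i.val + k) % 32 := by
  rw [ZMod.val_add, ZMod.val_natCast, Nat.add_mod_mod]

lemma wrd_add (W : ℕ) (i : ZMod 32) (k : ℕ) :
    wrd W (i + (k : ZMod 32)) = (wd W ((i.val + k) % 32) : ZMod 3) := by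
  rw [wrd, val_add_nat]

lemma wrd_mem {e : ℕ} {W : ℕ} (h : recOk e W = true) : wrd W ∈ A (e : F) := by
  rw [mem_A]
  intro i
  rw [recOk, List.all_eq_true] at h
  have hi : i.val < 32 := ZMod.val_lt i
  have h1 := h i.val (List.mem_range.mpr hi)
  rw [beq_iff_eq] at h1
  have h2 : ((wd W ((i.val + 8) % 32) + e * wd W ((i.val + 4) % 32) + 2 * wd W i.val : ℕ) : ZMod 3)
      = 0 := by
    rw [ZMod.natCast_eq_zero_iff]
    exact Nat.dvd_of_mod_eq_zero h1
  have h8 := wrd_add W i 8
  have h4 := wrd_add W i 4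
  push_cast at h8 h4 h2
  rw [h8, h4]
  have h0 : wrd W i = (wd W i.val : ZMod 3) := rfl
  rw [h0]
  have h3 : (2 : ZMod 3) = -1 := by decide
  rw [h3] at h2
  rw [← h2]
  ring

lemma digs {a b c d e f g : ℕ} (ha : a < 3) (hb : b < 3) (hc : c < 3) (hd : d < 3) (he : e < 3)
    (hf : f < 3) (hg : g < 3) :
    wd (a + 3 * b + 9 * c + 27 * d + 81 * e + 243 * f + 729 * g) 0 = a ∧
    wd (a + 3 * b + 9 * c + 27 * d + 81 * e + 243 * f + 729 * g) 1 = b ∧
    wd (a + 3 * b + 9 * c + 27 * d + 81 * e + 243 * f + 729 * g) 2 = c ∧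
    wd (a + 3 * b + 9 * c + 27 * d + 81 * e + 243 * f + 729 * g) 3 = d ∧
    wd (a + 3 * b + 9 * c + 27 * d + 81 * e + 243 * f + 729 * g) 4 = e ∧
    wd (a + 3 * b + 9 * c + 27 * d + 81 * e + 243 * f + 729 * g) 5 = f ∧
    wd (a + 3 * b + 9 * c + 27 * d + 81 * e + 243 * f + 729 * g) 6 = g := by
  simp only [wd]
  norm_num
  omega

lemma check {e : ℕ} {ws : List ℕ} (hr : ws.all (recOk e) = true) (hc : chk ws = true)
    (β : Fin 7 → F) (hβ : β ≠ 0) :
    ∃ w ∈ A (e : F), ∀ i : ZMod 32, w i ≠ 0 ∨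
      ∑ j : Fin 7, β j * w (i + (((j : ℕ) + 1 : ℕ) : ZMod 32)) ≠ 0 := by
  -- encode β
  obtain ⟨b, hb1, hb2, hb⟩ : ∃ b : ℕ, 1 ≤ b ∧ b < 2187 ∧ ∀ j : Fin 7, wd b j = (β j).val := by
    have h0 := ZMod.val_lt (β 0)
    have h1 := ZMod.val_lt (β 1)
    have h2 := ZMod.val_lt (β 2)
    have h3 := ZMod.val_lt (β 3)
    have h4 := ZMod.val_lt (β 4)
    have h5 := ZMod.val_lt (β 5)
    have h6 := ZMod.val_lt (β 6)
    have hdig : ∀ j : Fin 7, wd ((β 0).val + 3 * (β 1).val + 9 * (β 2).val + 27 * (β 3).val +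
      81 * (β 4).val + 243 * (β 5).val + 729 * (β 6).val) j = (β j).val := by
      obtain ⟨d0, d1, d2, d3, d4, d5, d6⟩ := digs h0 h1 h2 h3 h4 h5 h6
      intro j
      fin_cases j
      exacts [d0, d1, d2, d3, d4, d5, d6]
    refine ⟨_, ?_, ?_, hdig⟩
    · by_contra hlt
      push Not at hlt
      have hz : (β 0).val + 3 * (β 1).val + 9 * (β 2).val + 27 * (β 3).val +
        81 * (β 4).val + 243 * (β 5).val + 729 * (β 6).val = 0 := by omega
      rw [hz] at hdig
      apply hβ
      funext j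
      have h7 := hdig j
      rw [wd, Nat.zero_div, Nat.zero_mod] at h7
      exact (ZMod.val_eq_zero _).mp h7.symm
    · omega
  rw [chk, List.all_eq_true] at hc
  have h1 := hc (b - 1) (List.mem_range.mpr (by omega))
  rw [List.any_eq_true] at h1
  obtain ⟨W, hW, hg⟩ := h1
  rw [List.all_eq_true] at hr
  refine ⟨wrd W, wrd_mem (hr W hW), fun i => ?_⟩
  rw [good, List.all_eq_true] at hg
  have h2 := hg i.val (List.mem_range.mpr (ZMod.val_lt i))
  have hb' : b - 1 + 1 = b := by omega
  rw [hb', goodAt, Bool.or_eq_true, bne_iff_ne, bne_iff_ne] at h2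
  rcases h2 with h2 | h2
  · left
    intro h0
    apply h2
    have h3 : ((wd W i.val : ℕ) : ZMod 3) = 0 := h0
    rw [ZMod.natCast_eq_zero_iff] at h3
    have := wd_lt W i.val
    omega
  · right
    intro h0
    apply h2
    have hβj : ∀ j : Fin 7, β j = ((wd b j : ℕ) : ZMod 3) := fun j => by
      rw [hb j, ZMod.natCast_zmod_val]
    have h3 : ((wd b 0 * wd W ((i.val + 1) % 32) + wd b 1 * wd W ((i.val + 2) % 32) +
      wd b 2 * wd W ((i.val + 3) % 32) + wd b 3 * wd W ((i.val + 4) % 32) +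
      wd b 4 * wd W ((i.val + 5) % 32) + wd b 5 * wd W ((i.val + 6) % 32) +
      wd b 6 * wd W ((i.val + 7) % 32) : ℕ) : ZMod 3) = 0 := by
      rw [← h0, Fin.sum_univ_seven]
      simp only [wrd_add, hβj]
      push_cast
      rfl
    rw [ZMod.natCast_eq_zero_iff] at h3
    exact Nat.mod_eq_zero_of_dvd h3


lemma exists_functional {U W : Submodule F V} (h : finrank F U + 1 ≤ finrank F W) :
    ∃ f : V →ₗ[F] F, (∀ u ∈ U, f u = 0) ∧ ∃ x ∈ W, f x ≠ 0 := by
  obtain ⟨x, hx, hxU⟩ : ∃ x ∈ W, x ∉ U := by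
    by_contra hcon
    push Not at hcon
    have := Submodule.finrank_mono (s := W) (t := U) hcon
    omega
  obtain ⟨f, hf, hfU⟩ := Submodule.exists_le_ker_of_notMem hxU
  exact ⟨f, fun u hu => hfU hu, x, hx, hf⟩

theorem cov_A {e : ℕ} (he : (e : F) ^ 2 = 1) {ws : List ℕ} (hr : ws.all (recOk e) = true)
    (hc : chk ws = true) {U : Submodule F V}
    (hU : ∀ v ∈ A (e : F), ∃ i : ℕ, (E ^ i) v ∈ U) :
    finrank F (A (e : F)) ≤ finrank F U + 1 := by
  by_contra hcon
  push Not at hcon
  have h8 := finrank_A (e : F)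
  obtain ⟨f, hfU, hf⟩ := exists_functional (U := U) (W := A (e : F)) (by omega)
  -- π : coordinates 1..7
  let π : V →ₗ[F] (Fin 7 → F) := LinearMap.funLeft F F (fun j : Fin 7 => (((j : ℕ) + 1 : ℕ) : ZMod 32))
  let S : Submodule F (Fin 7 → F) := (U.map (T f)).map π
  have hS : finrank F S ≤ 6 := by
    have h1 : finrank F S ≤ finrank F (U.map (T f)) := Submodule.finrank_map_le _ _
    have h2 : finrank F (U.map (T f)) ≤ finrank F U := Submodule.finrank_map_le _ _
    omega
  have hST : S < ⊤ := by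
    rw [lt_top_iff_ne_top]
    intro h
    rw [h, finrank_top, Module.finrank_fin_fun] at hS
    omega
  obtain ⟨g, hg, hgS⟩ := Submodule.exists_le_ker_of_lt_top S hST
  let β : Fin 7 → F := fun j => g (Pi.single j 1)
  have hgβ : ∀ x, g x = ∑ j, β j * x j := by
    intro x
    have hx : x = ∑ j, x j • (Pi.single j (1 : F) : Fin 7 → F) := by
      funext k
      simp [Finset.sum_apply, Pi.single_apply]
    conv_lhs => rw [hx, map_sum]
    refine Finset.sum_congr rfl fun j _ => ?_
    rw [map_smul, smul_eq_mul, mul_comm]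
  have hβ : β ≠ 0 := by
    intro h0
    apply hg
    refine LinearMap.ext fun x => ?_
    rw [hgβ, h0]
    simp
  obtain ⟨w, hwA, hw⟩ := check hr hc β hβ
  obtain ⟨x, hxA, hxw⟩ := T_surj he f hf hwA
  obtain ⟨i, hi⟩ := hU x hxA
  have h1 : (E ^ i) w ∈ U.map (T f) := by
    rw [← hxw, ← T_Epow]
    exact Submodule.mem_map_of_mem hi
  have h2 : w (i : ZMod 32) = 0 := by
    have : (E ^ i) w 0 = 0 := by rw [← hxw, ← T_Epow, T_zero]; exact hfU _ hi
    rwa [Epow_apply, zero_add] at this
  have h3 : g (π ((E ^ i) w)) = 0 := hgS (Submodule.mem_map_of_mem h1)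
  rcases hw (i : ZMod 32) with h4 | h4
  · exact h4 h2
  · apply h4
    rw [hgβ] at h3
    rw [← h3]
    refine Finset.sum_congr rfl fun j _ => ?_
    have : π ((E ^ i) w) j = w ((((j : ℕ) + 1 : ℕ) : ZMod 32) + i) := by
      change (E ^ i) w _ = _
      rw [Epow_apply]
    rw [this, add_comm]


lemma F3 : (3 : F) = 0 := by decide

lemma mem_W1p {v : V} : v ∈ W1 ↔ ∀ i, v (i + 16) = -v i := by
  rw [mem_W1, funext_iff]
  refine forall_congr' fun i => ?_
  rw [Epow_apply, Pi.neg_apply]
  norm_num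

lemma A_le (e : F) (he : e ^ 2 = 1) : A e ≤ W1 := by
  intro v hv
  rw [mem_A] at hv
  rw [mem_W1p]
  intro i
  have H0 := hv i
  have H4 := hv (i + 4)
  have H8 := hv (i + 8)
  rw [show i + 4 + 8 = i + 12 by ring, show i + 4 + 4 = i + 8 by ring] at H4
  rw [show i + 8 + 8 = i + 16 by ring, show i + 8 + 4 = i + 12 by ring] at H8
  linear_combination H8 - e * H4 + 2 * H0 + (v i - e * v (i + 4)) * F3 + v (i + 8) * he

lemma AA_inf : A 1 ⊓ A (2 : F) = ⊥ := by
  rw [eq_bot_iff]
  rintro v ⟨h1, h2⟩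
  have h1' := mem_A'.mp h1
  have h2' := mem_A'.mp h2
  rw [h1', one_smul, show (2 : F) = -1 from by decide, neg_smul, one_smul, sub_neg_eq_add] at h2'
  have h3 := three ((E ^ 4) v)
  have h4 : (E ^ 4) v + (E ^ 4) v = 0 := by
    rw [← sub_eq_zero] at h2'
    have : (E ^ 4) v + (E ^ 4) v = -(v - (E ^ 4) v - (v + (E ^ 4) v)) := by abel
    rw [this, h2', neg_zero]
  rw [h4, zero_add] at h3
  exact Epow_inj 4 h3

lemma AA_sup : A 1 ⊔ A (2 : F) = W1 := by
  refine le_antisymm (sup_le (A_le 1 (by decide)) (A_le 2 (by decide))) fun v hv => ?_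
  rw [mem_W1p] at hv
  have ha : (E ^ 28) ((E ^ 8) v - (E ^ 4) v - v) ∈ A (1 : F) := by
    refine A_inv ?_ _
    rw [mem_A]
    intro i
    simp only [Pi.sub_apply, Epow_apply]
    push_cast
    have H0 := hv i
    rw [show i + 8 + 8 = i + 16 by ring, show i + 8 + 4 = i + 12 by ring,
      show i + 4 + 8 = i + 12 by ring, show i + 4 + 4 = i + 8 by ring]
    linear_combination H0 - v (i + 8) * F3
  have hb : (E ^ 28) ((E ^ 8) v + (E ^ 4) v - v) ∈ A (2 : F) := by
    refine A_inv ?_ _
    rw [mem_A]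
    intro i
    simp only [Pi.sub_apply, Pi.add_apply, Epow_apply]
    push_cast
    have H0 := hv i
    rw [show i + 8 + 8 = i + 16 by ring, show i + 8 + 4 = i + 12 by ring,
      show i + 4 + 8 = i + 12 by ring, show i + 4 + 4 = i + 8 by ring]
    linear_combination H0 + (v (i + 12) - v (i + 4)) * F3
  have : v = (E ^ 28) ((E ^ 8) v - (E ^ 4) v - v) + -(E ^ 28) ((E ^ 8) v + (E ^ 4) v - v) := by
    rw [← sub_eq_add_neg, ← map_sub]
    have h1 : (E ^ 8) v - (E ^ 4) v - v - ((E ^ 8) v + (E ^ 4) v - v) = (E ^ 4) v := by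
      have h3 := three ((E ^ 4) v)
      rw [← sub_eq_zero]
      calc _ = -((E ^ 4) v + (E ^ 4) v + (E ^ 4) v) := by abel
        _ = 0 := by rw [h3, neg_zero]
    rw [h1, ← E_add, show 28 + 4 = 32 from rfl, E32, Module.End.one_apply]
  rw [this]
  exact Submodule.add_mem_sup ha (neg_mem hb)

theorem cov_W1 {U : Submodule F V} (hU : Cov W1 U) : finrank F W1 ≤ finrank F U + 1 := by
  by_contra hcon
  push Not at hcon
  have e1 : ((1 : ℕ) : F) = 1 := by norm_num
  have e2 : ((2 : ℕ) : F) = 2 := by norm_num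
  have h1 : finrank F (A (1 : F)) ≤ finrank F (U ⊓ A 1 : Submodule F V) + 1 := by
    have := cov_A (e := 1) (by decide) recP chkP (U := U ⊓ A ((1 : ℕ) : F))
      (fun v hv => by
        obtain ⟨i, hi⟩ := hU.2 v (by rw [e1] at hv; exact A_le 1 (by decide) hv)
        exact ⟨i, hi, A_inv hv i⟩)
    rwa [e1] at this
  have h2 : finrank F (A (2 : F)) ≤ finrank F (U ⊓ A 2 : Submodule F V) + 1 := by
    have := cov_A (e := 2) (by decide) recM chkM (U := U ⊓ A ((2 : ℕ) : F))
      (fun v hv => by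
        obtain ⟨i, hi⟩ := hU.2 v (by rw [e2] at hv; exact A_le 2 (by decide) hv)
        exact ⟨i, hi, A_inv hv i⟩)
    rwa [e2] at this
  obtain ⟨hs, hs1, hs2⟩ := split AA_inf AA_sup h1 h2 (by omega)
  obtain ⟨f, hfU, hf⟩ := exists_functional (U := U ⊓ A 1) (W := A (1 : F)) hs1
  obtain ⟨g, hgU, hg⟩ := exists_functional (U := U ⊓ A 2) (W := A (2 : F)) hs2
  have hw1 : wrd 926647865453160 ∈ A (1 : F) := by
    have := wrd_mem (e := 1) (W := 926647865453160) (by decide +kernel)
    rwa [e1] at this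
  have hw2 : wrd 1852741224573160 ∈ A (2 : F) := by
    have := wrd_mem (e := 2) (W := 1852741224573160) (by decide +kernel)
    rwa [e2] at this
  obtain ⟨x, hx, hxw⟩ := T_surj (by decide) f hf hw1
  obtain ⟨y, hy, hyw⟩ := T_surj (by decide) g hg hw2
  have hxy : x + y ∈ W1 := by rw [← AA_sup]; exact Submodule.add_mem_sup hx hy
  obtain ⟨i, hi⟩ := hU.2 _ hxy
  rw [← hs] at hi
  obtain ⟨a, ha, b, hb, hab⟩ := Submodule.mem_sup.mp hi
  rw [map_add] at hab
  have h3 : (E ^ i) x - a = b - (E ^ i) y := by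
    rw [sub_eq_sub_iff_add_eq_add, ← hab, add_comm]
  have h4 : (E ^ i) x - a ∈ A 1 ⊓ A (2 : F) := by
    refine ⟨sub_mem (A_inv hx i) ha.2, ?_⟩
    rw [h3]
    exact sub_mem hb.2 (A_inv hy i)
  have h5 : (E ^ i) y - b ∈ A 1 ⊓ A (2 : F) := by
    have : (E ^ i) y - b = -((E ^ i) x - a) := by rw [h3]; abel
    rw [this]
    exact neg_mem h4
  rw [AA_inf, Submodule.mem_bot, sub_eq_zero] at h4 h5
  have h6 : wrd 926647865453160 (i : ZMod 32) = 0 := by
    have : (E ^ i) (T f x) 0 = 0 := by rw [← T_Epow, T_zero, h4]; exact hfU _ ha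
    rwa [Epow_apply, zero_add, hxw] at this
  have h7 : wrd 1852741224573160 (i : ZMod 32) = 0 := by
    have : (E ^ i) (T g y) 0 = 0 := by rw [← T_Epow, T_zero, h5]; exact hgU _ hb
    rwa [Epow_apply, zero_add, hyw] at this
  have key : ∀ j : ZMod 32, ¬ (wrd 926647865453160 j = 0 ∧ wrd 1852741224573160 j = 0) := by
    decide +kernel
  exact key _ ⟨h6, h7⟩



lemma three_pol : (3 : F[X]) = 0 := by
  have : ((3 : ℕ) : F[X]) = 0 := CharP.cast_eq_zero _ 3
  simpa using this

/-- the two polynomials defining the covering space of codimension two -/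
noncomputable def pf : F[X] := (X ^ 16 - 1) * (X ^ 8 - X ^ 4 - 1)
noncomputable def pg : F[X] := (X ^ 16 + 1) * (X ^ 8 + 1) * (X ^ 4 - 1) * (X ^ 2 - X - 1)

lemma pf_rel : (X ^ 8 + X ^ 4 - 1) * pf = X ^ 32 - 1 := by
  rw [pf]
  linear_combination (-(X ^ 24 - X ^ 8) : F[X]) * three_pol

lemma pg_rel : (X ^ 2 + X - 1) * pg = X ^ 32 - 1 := by
  rw [pg]
  linear_combination (-(X ^ 2 * ((X ^ 16 + 1) * (X ^ 8 + 1) * (X ^ 4 - 1))) : F[X]) * three_pol

lemma aeval_cyc : aeval E (X ^ 32 - 1 : F[X]) = 0 := by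
  rw [map_sub, map_pow, aeval_X, map_one, E32, sub_self]

lemma f_rel (v : V) (i : ZMod 32) :
    (aeval E pf) v (i + 8) = (aeval E pf) v i - (aeval E pf) v (i + 4) := by
  have h : (aeval E ((X ^ 8 + X ^ 4 - 1) * pf)) v i = 0 := by
    rw [pf_rel, aeval_cyc]; rfl
  rw [map_mul, Module.End.mul_apply, map_sub, map_add, map_pow, map_pow, aeval_X, map_one,
    LinearMap.sub_apply, LinearMap.add_apply, Pi.sub_apply, Pi.add_apply, Epow_apply,
    Epow_apply, Module.End.one_apply] at h
  push_cast at h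
  linear_combination h

lemma g_rel (v : V) (i : ZMod 32) :
    (aeval E pg) v (i + 2) = (aeval E pg) v i - (aeval E pg) v (i + 1) := by
  have h : (aeval E ((X ^ 2 + X - 1) * pg)) v i = 0 := by
    rw [pg_rel, aeval_cyc]; rfl
  rw [map_mul, Module.End.mul_apply, map_sub, map_add, map_pow, aeval_X, map_one,
    LinearMap.sub_apply, LinearMap.add_apply, Pi.sub_apply, Pi.add_apply, Epow_apply,
    E_apply, Module.End.one_apply] at h
  push_cast at h
  linear_combination h

lemma four {a b c d : F} (h1 : c = a - b) (h2 : d = b - c) : a = 0 ∨ b = 0 ∨ c = 0 ∨ d = 0 := by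
  subst h1 h2
  revert a b
  decide

/-- the covering space of codimension two -/
noncomputable def fg : V →ₗ[F] F × F :=
  LinearMap.prod ((LinearMap.proj 0) ∘ₗ (aeval E pf)) ((LinearMap.proj 0) ∘ₗ (aeval E pg))

lemma fg_apply (v : V) : fg v = ((aeval E pf) v 0, (aeval E pg) v 0) := rfl

lemma aeval_E_comm (p : F[X]) (k : ℕ) (v : V) : (aeval E p) ((E ^ k) v) = (E ^ k) ((aeval E p) v) := by
  have h : (E ^ k) = aeval E (X ^ k : F[X]) := by rw [map_pow, aeval_X]
  rw [h, ← Module.End.mul_apply, ← map_mul, mul_comm, map_mul, Module.End.mul_apply]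

lemma fg_cov (v : V) : ∃ i : ℕ, fg ((E ^ i) v) = 0 := by
  set f := (aeval E pf) v with hf
  set g := (aeval E pg) v with hg
  have hshift : ∀ i : ℕ, fg ((E ^ i) v) = (f i, g i) := by
    intro i
    rw [fg_apply, aeval_E_comm, aeval_E_comm, Epow_apply, Epow_apply, zero_add]
  -- zero of g among 0..3
  have hG : ∃ r : ℕ, g (r : ZMod 32) = 0 := by
    have e2 := g_rel v 0
    have e3 := g_rel v 1
    rw [← hg] at e2 e3
    rw [show (0 : ZMod 32) + 2 = 2 by decide, show (0 : ZMod 32) + 1 = 1 by decide] at e2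
    rw [show (1 : ZMod 32) + 2 = 3 by decide, show (1 : ZMod 32) + 1 = 2 by decide] at e3
    rcases four e2 e3 with h | h | h | h
    · exact ⟨0, by simpa using h⟩
    · exact ⟨1, by simpa using h⟩
    · exact ⟨2, by simpa using h⟩
    · exact ⟨3, by simpa using h⟩
  obtain ⟨r, hr⟩ := hG
  have hg4 : ∀ i : ZMod 32, g (i + 4) = - g i := by
    intro i
    have e2 := g_rel v i
    have e3 := g_rel v (i + 1)
    have e4 := g_rel v (i + 2)
    rw [← hg] at e2 e3 e4
    rw [show i + 1 + 2 = i + 3 by ring, show i + 1 + 1 = i + 2 by ring] at e3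
    rw [show i + 2 + 2 = i + 4 by ring, show i + 2 + 1 = i + 3 by ring] at e4
    rw [e4, e3, e2]
    linear_combination (g i - g (i + 1)) * F3
  have hgr : ∀ k : ℕ, g ((r : ZMod 32) + 4 * k) = 0 := by
    intro k
    induction k with
    | zero => simpa using hr
    | succ k ih =>
      have : (r : ZMod 32) + 4 * ((k + 1 : ℕ) : ZMod 32) = ((r : ZMod 32) + 4 * k) + 4 := by
        push_cast; ring
      rw [this, hg4, ih, neg_zero]
  have hF : ∃ k : ℕ, f ((r : ZMod 32) + 4 * k) = 0 := by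
    have e2 := f_rel v r
    have e3 := f_rel v (r + 4)
    rw [← hf] at e2 e3
    rw [show (r : ZMod 32) + 4 + 8 = r + 12 by ring, show (r : ZMod 32) + 4 + 4 = r + 8 by ring] at e3
    rcases four e2 e3 with h | h | h | h
    · exact ⟨0, by simpa using h⟩
    · exact ⟨1, by simpa using h⟩
    · refine ⟨2, ?_⟩
      rw [← h]; congr 1
    · refine ⟨3, ?_⟩
      rw [← h]; congr 1
  obtain ⟨k, hk⟩ := hF
  refine ⟨r + 4 * k, ?_⟩
  rw [hshift]
  push_cast
  rw [hk, hgr]
  rfl

lemma fg_single0 : fg (Pi.single 0 1) = (1, 1) := by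
  rw [fg_apply, pf, pg]
  simp only [map_mul, map_sub, map_add, map_pow, map_one, aeval_X, Module.End.mul_apply,
    LinearMap.sub_apply, LinearMap.add_apply, Module.End.one_apply, Pi.sub_apply, Pi.add_apply,
    Epow_apply, E_apply, Prod.mk.injEq]
  decide +kernel

lemma fg_single1 : fg (Pi.single 1 1) = (0, 1) := by
  rw [fg_apply, pf, pg]
  simp only [map_mul, map_sub, map_add, map_pow, map_one, aeval_X, Module.End.mul_apply,
    LinearMap.sub_apply, LinearMap.add_apply, Module.End.one_apply, Pi.sub_apply, Pi.add_apply,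
    Epow_apply, E_apply, Prod.mk.injEq]
  decide +kernel

lemma fg_surj : Function.Surjective fg := by
  rintro ⟨a, b⟩
  refine ⟨a • Pi.single 0 1 + (b - a) • Pi.single 1 1, ?_⟩
  rw [map_add, map_smul, map_smul, fg_single0, fg_single1]
  ext <;> simp

theorem cov_top : Cov ⊤ (LinearMap.ker fg) ∧
    finrank F (LinearMap.ker fg) + 2 = finrank F V := by
  refine ⟨⟨le_top, fun v _ => ?_⟩, ?_⟩
  · obtain ⟨i, hi⟩ := fg_cov v
    exact ⟨i, hi⟩
  · have h := LinearMap.finrank_range_add_finrank_ker fg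
    rw [LinearMap.range_eq_top.mpr fg_surj, finrank_top, Module.finrank_prod,
      Module.finrank_self] at h
    omega


section field

abbrev K := GaloisField 3 32

noncomputable abbrev σ : K →ₗ[F] K := frob F K

lemma finrank_K : finrank F K = 32 := GaloisField.finrank 3 (by norm_num)

noncomputable def φ : Gal(K/F) := FiniteField.frobeniusAlgEquivOfAlgebraic F K

lemma φ_apply (x : K) : φ x = σ x := rfl

lemma φ32 : φ ^ 32 = 1 := by
  have h : orderOf φ = 32 := (FiniteField.orderOf_frobeniusAlgEquivOfAlgebraic F K).trans finrank_K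
  exact orderOf_dvd_iff_pow_eq_one.mp (dvd_of_eq h)

lemma φ_mod (k : ℕ) : φ ^ (k % 32) = φ ^ k := by
  conv_rhs => rw [← Nat.mod_add_div k 32, pow_add, pow_mul, φ32, one_pow, mul_one]

noncomputable def idx : ZMod 32 ≃ Gal(K/F) :=
  Equiv.ofBijective (fun i : ZMod 32 => (φ ^ i.val)⁻¹) (by
    have hb := FiniteField.bijective_frobeniusAlgEquivOfAlgebraic_pow F K
    constructor
    · intro i j hij
      have h1 : φ ^ i.val = φ ^ j.val := inv_injective hij
      have hi : i.val < finrank F K := by rw [finrank_K]; exact ZMod.val_lt i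
      have hj : j.val < finrank F K := by rw [finrank_K]; exact ZMod.val_lt j
      have h2 := @hb.1 ⟨i.val, hi⟩ ⟨j.val, hj⟩ h1
      have h4 : i.val = j.val := by simpa using h2
      exact ZMod.val_injective 32 h4
    · intro g
      obtain ⟨n, hn⟩ := hb.2 g⁻¹
      refine ⟨(n.1 : ZMod 32), ?_⟩
      have hn' : n.1 < 32 := lt_of_lt_of_eq n.2 finrank_K
      change (φ ^ ((n.1 : ZMod 32)).val)⁻¹ = g
      rw [ZMod.val_natCast, Nat.mod_eq_of_lt hn', inv_eq_iff_eq_inv]
      exact hn)

lemma idx_apply (i : ZMod 32) : idx i = (φ ^ i.val)⁻¹ := rfl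

noncomputable def nb : Basis (ZMod 32) F K := (IsGalois.normalBasis F K).reindex idx.symm

lemma nb_apply (i : ZMod 32) : nb i = (φ ^ i.val)⁻¹ (IsGalois.normalBasis F K 1) := by
  rw [nb, Basis.reindex_apply, Equiv.symm_symm, IsGalois.normalBasis_apply, idx_apply]

lemma σ_nb (i : ZMod 32) : σ (nb (i + 1)) = nb i := by
  rw [← φ_apply, nb_apply, nb_apply]
  have h : φ ^ (i + 1).val = φ ^ (i.val + 1) := by
    rw [ZMod.val_add, ← φ_mod (i.val + 1)]
    rfl
  rw [h, pow_succ, mul_inv_rev, ← AlgEquiv.mul_apply, mul_inv_cancel_left]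

noncomputable def Θ : V ≃ₗ[F] K := nb.equivFun.symm

lemma Θ_E (v : V) : σ (Θ v) = Θ (E v) := by
  rw [Θ, Basis.equivFun_symm_apply, Basis.equivFun_symm_apply, map_sum]
  rw [← Equiv.sum_comp (Equiv.addRight (1 : ZMod 32))]
  refine Finset.sum_congr rfl fun i _ => ?_
  rw [Equiv.coe_addRight, map_smul, σ_nb, E_apply]

lemma Θ_Epow (k : ℕ) (v : V) : (σ ^ k) (Θ v) = Θ ((E ^ k) v) := by
  induction k with
  | zero => simp
  | succ k ih => rw [pow_succ', Module.End.mul_apply, ih, Θ_E, add_comm, E_add, pow_one]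

lemma σ32 : σ ^ 32 = 1 := by
  refine LinearMap.ext fun x => ?_
  obtain ⟨v, rfl⟩ := Θ.surjective x
  rw [Θ_Epow, E32]
  rfl

lemma covering_iff (W U : Submodule F K) :
    IsCovering W U ↔ Cov (W.comap Θ.toLinearMap) (U.comap Θ.toLinearMap) := by
  constructor
  · rintro ⟨h1, h2⟩
    refine ⟨Submodule.comap_mono h1, fun v hv => ?_⟩
    obtain ⟨i, hi, hx⟩ := h2 (Θ v) hv
    obtain ⟨u, hu, hux⟩ := Submodule.mem_map.mp hx
    rw [finrank_K] at hi
    refine ⟨32 - i, ?_⟩
    change Θ ((E ^ (32 - i)) v) ∈ U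
    rw [← Θ_Epow, ← hux, ← Module.End.mul_apply, ← pow_add, Nat.sub_add_cancel hi.le, σ32]
    exact hu
  · rintro ⟨h1, h2⟩
    refine ⟨fun x hx => ?_, fun x hx => ?_⟩
    · have hx' : Θ.symm x ∈ U.comap Θ.toLinearMap := by
        change Θ (Θ.symm x) ∈ U
        rwa [Θ.apply_symm_apply]
      have := h1 hx'
      change Θ (Θ.symm x) ∈ W at this
      rwa [Θ.apply_symm_apply] at this
    · have hx' : Θ.symm x ∈ W.comap Θ.toLinearMap := by
        change Θ (Θ.symm x) ∈ W
        rwa [Θ.apply_symm_apply]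
      obtain ⟨i, hi⟩ := h2 _ hx'
      change Θ ((E ^ i) (Θ.symm x)) ∈ U at hi
      rw [← Epow_mod, ← Θ_Epow, Θ.apply_symm_apply] at hi
      rw [finrank_K]
      have h32 : i % 32 < 32 := Nat.mod_lt _ (by norm_num)
      by_cases h0 : i % 32 = 0
      · refine ⟨0, by norm_num, ?_⟩
        rw [h0] at hi
        simpa using hi
      · refine ⟨32 - i % 32, by omega, ?_⟩
        refine Submodule.mem_map.mpr ⟨_, hi, ?_⟩
        rw [← Module.End.mul_apply, ← pow_add, Nat.sub_add_cancel h32.le, σ32]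
        rfl

lemma finrank_comap (W : Submodule F K) :
    finrank F (W.comap Θ.toLinearMap) = finrank F W := by
  have h : W.comap Θ.toLinearMap = W.map Θ.symm.toLinearMap := by
    ext v
    rw [Submodule.mem_map_equiv]
    rfl
  rw [h]
  exact LinearEquiv.finrank_map_eq Θ.symm W

lemma hSigma_le {W : Submodule F K}
    (h : ∀ U, Cov (W.comap Θ.toLinearMap) U → finrank F (W.comap Θ.toLinearMap) ≤ finrank F U + 1) :
    hSigma W ≤ 1 := by
  refine csSup_le' ?_
  rintro d ⟨U, hU, hd⟩
  have := h _ ((covering_iff W U).mp hU)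
  rw [finrank_comap, finrank_comap] at this
  omega

theorem result :
    ∃ W₁ W₂ : Submodule (ZMod 3) (GaloisField 3 32),
      W₁.map (frob (ZMod 3) (GaloisField 3 32)) ≤ W₁ ∧
      W₂.map (frob (ZMod 3) (GaloisField 3 32)) ≤ W₂ ∧
      IsCompl W₁ W₂ ∧ hSigma W₁ ≤ 1 ∧ hSigma W₂ ≤ 1 ∧
      2 ≤ hSigma (⊤ : Submodule (ZMod 3) (GaloisField 3 32)) := by
  have hm1 : ∀ x : K, x ∈ LinearMap.ker (σ ^ 16 + 1) ↔ (σ ^ 16) x = -x := by
    intro x
    rw [LinearMap.mem_ker, LinearMap.add_apply, Module.End.one_apply, add_eq_zero_iff_eq_neg]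
  have hm2 : ∀ x : K, x ∈ LinearMap.ker (σ ^ 16 - 1) ↔ (σ ^ 16) x = x := by
    intro x
    rw [LinearMap.mem_ker, LinearMap.sub_apply, Module.End.one_apply, sub_eq_zero]
  have hcomm : ∀ x : K, (σ ^ 16) (σ x) = σ ((σ ^ 16) x) := by
    intro x
    rw [← Module.End.mul_apply, ← Module.End.mul_apply, ← pow_succ, ← pow_succ']
  have h3 : ∀ x : K, x + x + x = 0 := by
    intro x
    have : x + x + x = (3 : F) • x := by
      rw [show (3 : F) = 1 + 1 + 1 by norm_num, add_smul, add_smul, one_smul]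
    rw [this, F3, zero_smul]
  have hW1 : (LinearMap.ker (σ ^ 16 + 1)).comap Θ.toLinearMap = W1 := by
    ext v
    rw [Submodule.mem_comap, mem_W1]
    change Θ v ∈ _ ↔ _
    rw [hm1, Θ_Epow, ← map_neg]
    exact Θ.injective.eq_iff
  have hW2 : (LinearMap.ker (σ ^ 16 - 1)).comap Θ.toLinearMap = W2 := by
    ext v
    rw [Submodule.mem_comap, mem_W2]
    change Θ v ∈ _ ↔ _
    rw [hm2, Θ_Epow]
    exact Θ.injective.eq_iff
  refine ⟨LinearMap.ker (σ ^ 16 + 1), LinearMap.ker (σ ^ 16 - 1), ?_, ?_, ?_, ?_, ?_, ?_⟩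
  · rw [Submodule.map_le_iff_le_comap]
    intro x hx
    rw [hm1] at hx
    rw [Submodule.mem_comap, hm1]
    change (σ ^ 16) (σ x) = -σ x
    rw [hcomm, hx, map_neg]
  · rw [Submodule.map_le_iff_le_comap]
    intro x hx
    rw [hm2] at hx
    rw [Submodule.mem_comap, hm2]
    change (σ ^ 16) (σ x) = σ x
    rw [hcomm, hx]
  · constructor
    · rw [Submodule.disjoint_def]
      intro x h1 h2
      rw [hm1] at h1
      rw [hm2] at h2
      rw [h2] at h1
      have h4 := h3 x
      have : x + x = 0 := by nth_rewrite 1 [h1]; exact neg_add_cancel x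
      rwa [this, zero_add] at h4
    · rw [codisjoint_iff, eq_top_iff]
      intro x _
      have h16 : (σ ^ 16) ((σ ^ 16) x) = x := by
        rw [← Module.End.mul_apply, ← pow_add, σ32]; rfl
      have ha : -(x - (σ ^ 16) x) ∈ LinearMap.ker (σ ^ 16 + 1) := by
        rw [hm1, map_neg, map_sub, h16]; abel
      have hb : -(x + (σ ^ 16) x) ∈ LinearMap.ker (σ ^ 16 - 1) := by
        rw [hm2, map_neg, map_add, h16, add_comm]
      have : x = -(x - (σ ^ 16) x) + -(x + (σ ^ 16) x) := by
        rw [← sub_eq_zero]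
        calc _ = x + x + x := by abel
          _ = 0 := h3 x
      rw [this]
      exact Submodule.add_mem_sup ha hb
  · refine hSigma_le ?_
    rw [hW1]
    exact fun U hU => cov_W1 hU
  · refine hSigma_le ?_
    rw [hW2]
    exact fun U hU => cov_W2 hU
  · obtain ⟨h1, h2⟩ := cov_top
    refine le_csSup ⟨finrank F (⊤ : Submodule F K), ?_⟩ ?_
    · rintro d ⟨U, -, hd⟩
      have h4 := Nat.le_add_left d (Module.finrank F U)
      rw [← hd] at h4
      exact h4
    · refine ⟨(LinearMap.ker fg).comap Θ.symm.toLinearMap, ?_, ?_⟩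
      · rw [covering_iff, ← Submodule.comap_comp]
        have e1 : Θ.symm.toLinearMap ∘ₗ Θ.toLinearMap = LinearMap.id := by
          ext1
          simp
        rw [e1, Submodule.comap_id, Submodule.comap_top]
        exact h1
      · rw [finrank_top, finrank_K]
        have e2 := finrank_comap ((LinearMap.ker fg).comap Θ.symm.toLinearMap)
        rw [← Submodule.comap_comp] at e2
        have e1 : Θ.symm.toLinearMap ∘ₗ Θ.toLinearMap = LinearMap.id := by
          ext1
          simp
        rw [e1, Submodule.comap_id] at e2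
        rw [← e2]
        rw [Module.finrank_pi, Fintype.card_eq_nat_card] at h2
        simp at h2
        omega

end field

end Pool.Agent.Results.MP_9cc08e_co.FrobeniusSplit
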